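import Pool.Agent.Helper60.EV2.Exist

/-!
# AT, leaf U1: an ascending one-component diagram has the value one

`Mix n D`: the crossings whose first passage in the travel from `b` is before the time `n` are passed over there, all others are passed under at their first passage. Step from `n` to `n + 1`: change the
crossing which is met first at the time `n`; the smoothed diagram is split.
-/

set_option autoImplicit false

namespace Pool.Agent.Helper14.AT

open Polynomial Pool.Agent.Helper85.Exp Pool.Agent.Helper60.EV2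

variable {P : Type} {G : Sh P}

/-- the mixed diagrams -/
def Mix (b : P) (n : ℕ) (D : Dg G) : Prop :=
  ∀ k : ℕ, D.st (D.tr^[k] b) ≠ .smooth → (∀ l ≤ k, D.tr^[l] b ≠ G.op (D.tr^[k] b)) →
    (k < n → D.ovr (D.tr^[k] b) = true) ∧ (n ≤ k → D.ovr (D.tr^[k] b) = false)

theorem ovr_op (D : Dg G) (i : P) (h : D.st i ≠ .smooth) (hi : G.op i ≠ i) : D.ovr (G.op i) = !D.ovr i := by
  unfold Dg.ovr
  rw [D.st_op, G.lf_op i hi]
  cases h2 : D.st i
  · simp
  · simp
  · exact absurd h2 h

variable [Fintype P]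

/-- change the crossing of `i` -/
theorem exists_change {nab : Dg G → ℤ[X]} (h : Cs nab) (D : Dg G) (i : P) (hi : G.op i ≠ i) (hs : D.st i ≠ .smooth)
    (h0 : nab (D.upd i .smooth) = 0) : ∃ t : St, t ≠ .smooth ∧ (D.upd i t).ovr i = !D.ovr i ∧ nab (D.upd i t) = nab D := by
  have h1 := h.skein D i hi
  rw [h0, mul_zero, sub_eq_zero] at h1
  cases h2 : D.st i
  · refine ⟨.neg, by decide, ?_, ?_⟩
    · unfold Dg.ovr
      rw [upd_st D i _ i (Or.inl rfl), h2]
      simp
    · have h3 := upd_self D i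
      rw [h2] at h3
      rw [← h1, h3]
  · refine ⟨.pos, by decide, ?_, ?_⟩
    · unfold Dg.ovr
      rw [upd_st D i _ i (Or.inl rfl), h2]
    · have h3 := upd_self D i
      rw [h2] at h3
      rw [h1, h3]
  · exact absurd h2 hs

theorem card_le {D : Dg G} {b : P} (h1 : ∀ i, ∃ k : ℕ, D.tr^[k] b = i) {l : ℕ} (hl : 0 < l) (h : D.tr^[l] b = b) :
    Fintype.card P ≤ l := by
  have h2 : Function.Surjective fun x : Fin l => D.tr^[x.val] b := by
    intro i
    obtain ⟨k, hk⟩ := h1 i
    refine ⟨⟨k % l, Nat.mod_lt _ hl⟩, ?_⟩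
    show D.tr^[k % l] b = i
    rw [← closed_orbit D b h k, hk]
  have h3 := Fintype.card_le_of_surjective _ h2
  rwa [Fintype.card_fin] at h3

theorem period {D : Dg G} {b : P} (h1 : ∀ i, ∃ k : ℕ, D.tr^[k] b = i) : D.tr^[Fintype.card P] b = b := by
  obtain ⟨n, hn, hn2, hn3⟩ := tr_period D b
  have h2 := card_le h1 hn hn3
  rwa [le_antisymm hn2 h2] at hn3

theorem ne_of_lt {D : Dg G} {b : P} (h1 : ∀ i, ∃ k : ℕ, D.tr^[k] b = i) {l m : ℕ} (hlm : l < m) (hm : m < Fintype.card P) :
    D.tr^[l] b ≠ D.tr^[m] b :=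
  iterate_ne D b (k := Fintype.card P) (fun l h2 h3 h4 => by
    have := card_le h1 h2 h4
    omega) hlm hm

theorem eq_of_eq {D : Dg G} {b : P} (h1 : ∀ i, ∃ k : ℕ, D.tr^[k] b = i) {l m : ℕ} (hl : l < Fintype.card P) (hm : m < Fintype.card P)
    (h : D.tr^[l] b = D.tr^[m] b) : l = m := by
  rcases lt_trichotomy l m with h2 | h2 | h2
  · exact absurd h (ne_of_lt h1 h2 hm)
  · exact h2
  · exact absurd h.symm (ne_of_lt h1 h2 hl)

theorem time {D : Dg G} {b : P} (h1 : ∀ i, ∃ k : ℕ, D.tr^[k] b = i) (i : P) : ∃ k < Fintype.card P, D.tr^[k] b = i := by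
  obtain ⟨k, hk⟩ := h1 i
  have hP : 0 < Fintype.card P := Fintype.card_pos_iff.2 ⟨b⟩
  refine ⟨k % Fintype.card P, Nat.mod_lt _ hP, ?_⟩
  rw [← closed_orbit D b (period h1) k, hk]

/-- the smoothed diagram is split -/
theorem split_zero {nab : Dg G → ℤ[X]} (h : Cs nab) {D : Dg G} {b : P} (h1 : ∀ i, ∃ k : ℕ, D.tr^[k] b = i) {n : ℕ} (hM : Mix b n D)
    (hs : D.st (D.tr^[n] b) ≠ .smooth) (hf : ∀ l ≤ n, D.tr^[l] b ≠ G.op (D.tr^[n] b)) : nab (D.upd (D.tr^[n] b) .smooth) = 0 := by
  classical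
  obtain ⟨N, hN⟩ : ∃ N, N = Fintype.card P := ⟨_, rfl⟩
  obtain ⟨p, hp⟩ : ∃ p, p = D.tr^[n] b := ⟨_, rfl⟩
  rw [← hp] at hs hf ⊢
  obtain ⟨n', hn'N, hn'⟩ := time h1 (G.op p)
  have hper := period h1
  rw [← hN] at hn'N hper
  have hnn : n < n' := by
    by_contra h2
    exact hf n' (by omega) hn'
  have hnN : n < N := by omega
  have hop : G.op p ≠ p := by
    rw [← hn', hp]
    intro h2
    exact ne_of_lt h1 hnn (by omega) h2.symm
  obtain ⟨D0, hD0⟩ : ∃ D0, D0 = D.upd p .smooth := ⟨_, rfl⟩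
  rw [← hD0]
  -- the travelling map of the smoothed diagram
  have t1 : D0.tr p = D.tr (G.op p) := by
    unfold Dg.tr
    rw [hD0, upd_st D p _ p (Or.inl rfl), if_pos rfl, D.st_op, if_neg hs]
  have t2 : D0.tr (G.op p) = D.tr p := by
    unfold Dg.tr
    rw [hD0, upd_st D p _ (G.op p) (Or.inr rfl), if_pos rfl, if_neg hs, G.op_op]
  have t3 : ∀ j, j ≠ p → j ≠ G.op p → D0.tr j = D.tr j := by
    intro j hj hj2
    apply tr_congr
    rw [hD0, upd_st_ne D p _ j hj hj2]
  -- the circuit which lies below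
  have hC : ∀ x, x ∈ (Finset.univ.filter fun x => ∃ k, n < k ∧ k ≤ n' ∧ D.tr^[k] b = x) ↔ ∃ k, n < k ∧ k ≤ n' ∧ D.tr^[k] b = x :=
    fun x => by simp
  obtain ⟨K, hK⟩ : ∃ K : Finset P, K = Finset.univ.filter fun x => ∃ k, n < k ∧ k ≤ n' ∧ D.tr^[k] b = x := ⟨_, rfl⟩
  rw [← hK] at hC
  have hmem : ∀ k < N, (D.tr^[k] b ∈ K ↔ n < k ∧ k ≤ n') := by
    intro k hk
    rw [hC]
    constructor
    · rintro ⟨k', h2, h3, h4⟩
      have : k' = k := eq_of_eq h1 (by omega) (by omega) h4
      omega
    · rintro ⟨h2, h3⟩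
      exact ⟨k, h2, h3, rfl⟩
  have hmemN : D.tr^[N] b ∉ K := by
    rw [hper]
    have h2 := hmem 0 (by omega)
    rw [Function.iterate_zero, id] at h2
    rw [h2]
    omega
  have hmem' : ∀ k ≤ N, (D.tr^[k] b ∈ K ↔ n < k ∧ k ≤ n') := by
    intro k hk
    rcases Nat.lt_or_eq_of_le hk with h2 | h2
    · exact hmem k h2
    · rw [h2]
      constructor
      · intro h3
        exact absurd h3 hmemN
      · intro h3
        omega
  have hsucc : ∀ k, D.tr (D.tr^[k] b) = D.tr^[k + 1] b := fun k => (Function.iterate_succ_apply' D.tr k b).symm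
  have hstep : ∀ i, D0.tr i ∈ K ↔ i ∈ K := by
    intro i
    obtain ⟨k, hk, rfl⟩ := time h1 i
    rw [← hN] at hk
    by_cases h2 : D.tr^[k] b = p
    · have h3 : k = n := eq_of_eq h1 (by omega) (by omega) (h2.trans hp)
      rw [h2, t1, ← hn', hsucc, hp, hmem' _ (by omega), hmem' _ (by omega)]
      omega
    · by_cases h3 : D.tr^[k] b = G.op p
      · have h4 : k = n' := eq_of_eq h1 (by omega) (by omega) (h3.trans hn'.symm)
        rw [h3, t2, ← hn', hp, hsucc, hmem' _ (by omega), hmem' _ (by omega)]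
        omega
      · rw [t3 _ h2 h3, hsucc, hmem' _ (by omega), hmem' _ (by omega)]
        have h4 : k ≠ n := by
          rintro rfl
          exact h2 hp.symm
        have h5 : k ≠ n' := by
          rintro rfl
          exact h3 hn'
        omega
  refine h.split D0 (Finset.univ \ K) ⟨p, ?_⟩ ?_ ?_ ?_
  · rw [Finset.mem_sdiff, hp, hmem' n (by omega)]
    exact ⟨Finset.mem_univ _, by omega⟩
  · intro h2
    have h3 := Finset.mem_univ (D.tr^[n'] b)
    rw [← h2, Finset.mem_sdiff, hmem' n' (by omega)] at h3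
    exact h3.2 ⟨hnn, le_refl _⟩
  · intro i
    rw [Finset.mem_sdiff, Finset.mem_sdiff, hstep i]
    simp
  · intro i hi hoi hsi
    rw [Finset.mem_sdiff] at hi hoi
    have hi2 := hi.2
    have hoi2 : G.op i ∈ K := by
      by_contra h2
      exact hoi ⟨Finset.mem_univ _, h2⟩
    have hip : i ≠ p := by
      rintro rfl
      apply hsi
      rw [hD0]
      exact upd_st D i _ i (Or.inl rfl)
    have hiop : i ≠ G.op p := by
      rintro rfl
      apply hsi
      rw [hD0]
      exact upd_st D p _ _ (Or.inr rfl)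
    have hst : D0.st i = D.st i := by
      rw [hD0]
      exact upd_st_ne D p _ i hip hiop
    have hov : D0.ovr i = D.ovr i := by
      unfold Dg.ovr
      rw [hst]
    rw [hst] at hsi
    rw [hov]
    obtain ⟨k, hk, hki⟩ := time h1 i
    obtain ⟨k', hk', hki'⟩ := time h1 (G.op i)
    rw [← hN] at hk hk'
    rw [← hki, hmem k hk] at hi2
    rw [← hki', hmem k' hk'] at hoi2
    have hkn : k ≠ n := by
      rintro rfl
      exact hip (hki.symm.trans hp.symm)
    rcases lt_or_ge k n with h2 | h2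
    · have h3 := hM k (by rw [hki]; exact hsi) (by
        intro l hl h4
        rw [hki, ← hki'] at h4
        have := eq_of_eq h1 (by omega) (by omega) h4
        omega)
      rw [← hki]
      exact h3.1 h2
    · have h4 : n' < k := by omega
      have h5 := hM k' (by rw [hki', D.st_op]; exact hsi) (by
        intro l hl h6
        rw [hki', G.op_op, ← hki] at h6
        have := eq_of_eq h1 (by omega) (by omega) h6
        omega)
      have h6 := h5.2 (by omega)
      rw [hki'] at h6
      have h7 : G.op i ≠ i := by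
        intro h8
        have : k' = k := eq_of_eq h1 (by omega) (by omega) (by rw [hki', hki, h8])
        omega
      rw [ovr_op D i hsi h7] at h6
      simpa using h6

/-- **[U1]** -/
theorem mix_one {nab : Dg G → ℤ[X]} (h : Cs nab) (b : P) (m : ℕ) : ∀ (n : ℕ) (D : Dg G), n + m = Fintype.card P →
    (∀ i, ∃ k : ℕ, D.tr^[k] b = i) → Mix b n D → nab D = 1 := by
  induction m with
  | zero =>
    intro n D hn h1 hM
    refine h.knot D b h1 fun k h2 h3 => (hM k h2 h3).1 ?_
    by_contra h4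
    obtain ⟨l, hl, hl2⟩ := time h1 (G.op (D.tr^[k] b))
    exact h3 l (by omega) hl2
  | succ m ih =>
    intro n D hn h1 hM
    by_cases h2 : D.st (D.tr^[n] b) ≠ .smooth ∧ ∀ l ≤ n, D.tr^[l] b ≠ G.op (D.tr^[n] b)
    · obtain ⟨hs, hf⟩ := h2
      have hop : G.op (D.tr^[n] b) ≠ D.tr^[n] b := fun h3 => hf n le_rfl h3.symm
      obtain ⟨t, ht, ht2, ht3⟩ := exists_change h D _ hop hs (split_zero h h1 hM hs hf)
      rw [← ht3]
      have hsm : ∀ j, (D.upd (D.tr^[n] b) t).st j = .smooth ↔ D.st j = .smooth := by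
        intro j
        by_cases hj : j = D.tr^[n] b ∨ j = G.op (D.tr^[n] b)
        · rw [upd_st D _ _ j hj]
          have h3 : D.st j ≠ .smooth := by
            rcases hj with hj | hj
            · rw [hj]
              exact hs
            · rw [hj, D.st_op]
              exact hs
          exact ⟨fun h4 => absurd h4 ht, fun h4 => absurd h4 h3⟩
        · push Not at hj
          rw [upd_st_ne D _ _ j hj.1 hj.2]
      have htr : (D.upd (D.tr^[n] b) t).tr = D.tr := by
        funext j
        exact tr_congr _ _ _ (hsm j)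
      apply ih (n + 1) _ (by omega)
      · rw [htr]
        exact h1
      · intro k h3 h4
        rw [htr] at h3 h4 ⊢
        have h5 : D.st (D.tr^[k] b) ≠ .smooth := fun h6 => h3 ((hsm _).2 h6)
        have h6 := hM k h5 h4
        by_cases hk : k = n
        · subst hk
          refine ⟨fun _ => ?_, fun h7 => by omega⟩
          rw [ht2, h6.2 le_rfl]
          rfl
        · have hkN : k < Fintype.card P := by
            by_contra h7
            obtain ⟨l, hl, hl2⟩ := time h1 (G.op (D.tr^[k] b))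
            exact h4 l (by omega) hl2
          have hk1 : D.tr^[k] b ≠ D.tr^[n] b := fun h7 => hk (eq_of_eq h1 hkN (by omega) h7)
          have hk2 : D.tr^[k] b ≠ G.op (D.tr^[n] b) := by
            intro h7
            have h8 : n ≤ k := by
              by_contra h9
              exact hf k (by omega) h7
            apply h4 n h8
            rw [h7, G.op_op]
          have hov : (D.upd (D.tr^[n] b) t).ovr (D.tr^[k] b) = D.ovr (D.tr^[k] b) := by
            unfold Dg.ovr
            rw [upd_st_ne D _ _ _ hk1 hk2]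
          rw [hov]
          exact ⟨fun h7 => h6.1 (by omega), fun h7 => h6.2 (by omega)⟩
    · apply ih (n + 1) D (by omega) h1
      intro k h3 h4
      have h6 := hM k h3 h4
      have hk : k ≠ n := by
        rintro rfl
        exact h2 ⟨h3, h4⟩
      exact ⟨fun h7 => h6.1 (by omega), fun h7 => h6.2 (by omega)⟩

/-- **[U1]** -/
theorem asc_one {nab : Dg G → ℤ[X]} (h : Cs nab) (D : Dg G) (b : P) (h1 : ∀ i, ∃ k : ℕ, D.tr^[k] b = i)
    (h2 : ∀ k : ℕ, D.st (D.tr^[k] b) ≠ .smooth → (∀ l ≤ k, D.tr^[l] b ≠ G.op (D.tr^[k] b)) → D.ovr (D.tr^[k] b) = false) :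
    nab D = 1 :=
  mix_one h b (Fintype.card P) 0 D (by omega) h1 fun k h3 h4 => ⟨fun h5 => by omega, fun _ => h2 k h3 h4⟩

end Pool.Agent.Helper14.AT
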